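import Pool.Agent.MP_008bba_ag.Cusp

open MvPolynomial

namespace Pool.Agent.MP_008bba_ag

/-! ### degree against the cuspidal cubic -/

lemma kdeg {ι : Type*} [Fintype ι] (t : ι → ℝ) (ht : ∀ i, 0 < t i) (hinj : Function.Injective t)
    {F : MvPolynomial (Fin 3) ℂ} {d : ℕ} (hF : F.IsHomogeneous d) (hF0 : F ≠ 0)
    (hD : ¬ cusp ∣ F) :
    ∑ i, mult F (pt (t i)) ≤ 3 * d ∧ (∑ i, mult F (pt (t i)) = 3 * d → d = 0) := by
  classical
  have hres : res F ≠ 0 := fun h => hD (cusp_dvd hF h)
  set G : Polynomial ℂ := ∏ i, (Polynomial.X - Polynomial.C ((t i : ℂ))) ^ (mult F (pt (t i)))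
    with hG
  have hGmonic : G.Monic := by
    apply Polynomial.monic_prod_of_monic
    intro i _
    exact (Polynomial.monic_X_sub_C _).pow _
  have hGdeg : G.natDegree = ∑ i, mult F (pt (t i)) := by
    rw [hG, Polynomial.natDegree_prod_of_monic]
    · apply Finset.sum_congr rfl
      intro i _
      rw [(Polynomial.monic_X_sub_C _).natDegree_pow, Polynomial.natDegree_X_sub_C, mul_one]
    · intro i _
      exact (Polynomial.monic_X_sub_C _).pow _
  have hdvd : G ∣ res F := by
    rw [hG]
    apply Finset.prod_dvd_of_coprime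
    · intro i _ j _ hij
      apply IsCoprime.pow
      apply Polynomial.isCoprime_X_sub_C_of_isUnit_sub
      rw [isUnit_iff_ne_zero, sub_ne_zero]
      intro h
      exact hij (hinj (by exact_mod_cast h))
    · intro i _
      exact res_dvd hF0 _
  have hle : ∑ i, mult F (pt (t i)) ≤ 3 * d := by
    rw [← hGdeg]
    exact (Polynomial.natDegree_le_of_dvd hdvd hres).trans (res_natDegree hF)
  refine ⟨hle, fun heq => ?_⟩
  by_contra hd
  have hd' : 0 < d := Nat.pos_of_ne_zero hd
  obtain ⟨Q, hQ⟩ := hdvd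
  have hQ0 : Q ≠ 0 := by
    rintro rfl
    exact hres (by simpa using hQ)
  have hdegF : (res F).natDegree = 3 * d := by
    apply le_antisymm (res_natDegree hF)
    rw [← heq, ← hGdeg, hQ]
    exact Polynomial.natDegree_le_of_dvd (Dvd.intro _ rfl) (by rw [← hQ]; exact hres)
  have hdegQ : Q.natDegree = 0 := by
    have := congrArg Polynomial.natDegree hQ
    rw [hGmonic.natDegree_mul' hQ0, hdegF, hGdeg, heq] at this
    omega
  obtain ⟨c, rfl⟩ := Polynomial.natDegree_eq_zero.mp hdegQ
  have hc : c ≠ 0 := by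
    rintro rfl
    simp at hQ0
  have hcoef := res_coeff hF hd'
  rw [hQ, Polynomial.coeff_mul_C] at hcoef
  have hnc : G.nextCoeff = 0 := by
    rw [Polynomial.nextCoeff_of_natDegree_pos (by rw [hGdeg, heq]; omega), hGdeg, heq]
    rcases mul_eq_zero.mp hcoef with h | h
    · exact h
    · exact absurd h hc
  rw [hG, Polynomial.Monic.nextCoeff_prod] at hnc
  · have h1 : ∀ i, ((Polynomial.X - Polynomial.C ((t i : ℂ))) ^ (mult F (pt (t i)))).nextCoeff =
        - ((mult F (pt (t i)) : ℂ) * t i) := by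
      intro i
      rw [(Polynomial.monic_X_sub_C _).nextCoeff_pow, Polynomial.nextCoeff_X_sub_C]
      simp
    simp only [h1] at hnc
    rw [Finset.sum_neg_distrib, neg_eq_zero] at hnc
    have h2 : ∑ i, ((mult F (pt (t i)) : ℝ) * t i) = 0 := by exact_mod_cast hnc
    rw [Finset.sum_eq_zero_iff_of_nonneg] at h2
    · have h3 : ∑ i, mult F (pt (t i)) = 0 := by
        apply Finset.sum_eq_zero
        intro i hi
        have := h2 i hi
        rcases mul_eq_zero.mp this with h | h
        · exact_mod_cast h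
        · exact absurd h (ht i).ne'
      omega
    · intro i _
      exact mul_nonneg (Nat.cast_nonneg _) (ht i).le
  · intro i _
    exact (Polynomial.monic_X_sub_C _).pow _

/-! ### dimension count -/

noncomputable def shearHom (t : ℂ) :
    MvPolynomial (Fin 3) ℂ →ₐ[ℂ] MvPolynomial (Fin 3) ℂ :=
  aeval ![X 0 + C t * X 1, X 1, X 2 + C (t ^ 3) * X 1]

noncomputable def shearInv (t : ℂ) :
    MvPolynomial (Fin 3) ℂ →ₐ[ℂ] MvPolynomial (Fin 3) ℂ :=
  aeval ![X 0 - C t * X 1, X 1, X 2 - C (t ^ 3) * X 1]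

lemma shear_inv (t : ℂ) (F : MvPolynomial (Fin 3) ℂ) : shearInv t (shearHom t F) = F := by
  have : (shearInv t).comp (shearHom t) = AlgHom.id ℂ _ := by
    apply MvPolynomial.algHom_ext
    intro i
    fin_cases i <;> simp [shearHom, shearInv, algebraMap_eq]
  exact congrArg (fun f => f F) this

lemma shear_isHomogeneous {F : MvPolynomial (Fin 3) ℂ} {d : ℕ} (hF : F.IsHomogeneous d) (t : ℂ) :
    (shearHom t F).IsHomogeneous d := by
  have := hF.aeval (![X 0 + C t * X 1, X 1, X 2 + C (t ^ 3) * X 1] : Fin 3 → MvPolynomial (Fin 3) ℂ)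
    (n := 1) (by
      intro i
      fin_cases i
      · exact (isHomogeneous_X ℂ _).add ((isHomogeneous_X ℂ _).C_mul _)
      · exact isHomogeneous_X ℂ _
      · exact (isHomogeneous_X ℂ _).add ((isHomogeneous_X ℂ _).C_mul _))
  simpa [shearHom] using this

/-- if all monomials of `shearHom t F` have `x`-degree plus `z`-degree at least `m`, then `F` vanishes to order
at least `m` at `pt t`. -/
lemma mem_ker_pow_of_shear {F : MvPolynomial (Fin 3) ℂ} {t : ℂ} {m : ℕ}
    (h : ∀ s ∈ (shearHom t F).support, m ≤ s 0 + s 2) :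
    F ∈ (RingHom.ker (eval (pt t))) ^ m := by
  set J : Ideal (MvPolynomial (Fin 3) ℂ) := Ideal.span {X 0, X 2} with hJ
  have h1 : shearHom t F ∈ J ^ m := by
    rw [(shearHom t F).as_sum]
    apply Ideal.sum_mem
    intro s hs
    apply Ideal.pow_le_pow_right (h s hs)
    rw [monomial_eq, Finsupp.prod_fintype _ _ (by intro i; simp), Fin.prod_univ_three, pow_add]
    apply Ideal.mul_mem_left
    have e : (X 0 ^ s 0 * X 1 ^ s 1 * X 2 ^ s 2 : MvPolynomial (Fin 3) ℂ) =
      X 1 ^ s 1 * (X 0 ^ s 0 * X 2 ^ s 2) := by ring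
    rw [e]
    apply Ideal.mul_mem_left
    apply Ideal.mul_mem_mul
    · exact Ideal.pow_mem_pow (Ideal.subset_span (by simp)) _
    · exact Ideal.pow_mem_pow (Ideal.subset_span (by simp)) _
  have h2 : J ≤ (RingHom.ker (eval (pt t))).comap (shearInv t) := by
    rw [hJ, Ideal.span_le]
    rintro x (rfl | hx)
    · simp [shearInv, pt, RingHom.mem_ker]
    · rw [Set.mem_singleton_iff] at hx
      subst hx
      simp [shearInv, pt, RingHom.mem_ker]
  have h3 := (Ideal.pow_right_mono h2 m).trans (Ideal.le_comap_pow _ m) h1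
  rw [Ideal.mem_comap, shear_inv] at h3
  exact h3

/-- index set of monomials of degree `< m` in two variables -/
abbrev Idx (m : ℕ) := Σ k : Fin m, Fin (k.1 + 1)

lemma card_Idx (m : ℕ) : 2 * Fintype.card (Idx m) = m * (m + 1) := by
  simp only [Fintype.card_sigma, Fintype.card_fin]
  rw [Fin.sum_univ_eq_sum_range (fun k => k + 1) m]
  induction m with
  | zero => simp
  | succ m ih => rw [Finset.sum_range_succ, mul_add, ih]; ring

/-- the exponent of `x^j y^(d-k) z^(k-j)` -/
noncomputable def expo (d k j : ℕ) : Fin 3 →₀ ℕ :=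
  Finsupp.equivFunOnFinite.symm ![j, d - k, k - j]

@[simp] lemma expo_zero (d k j : ℕ) : expo d k j 0 = j := rfl
@[simp] lemma expo_one (d k j : ℕ) : expo d k j 1 = d - k := rfl
@[simp] lemma expo_two (d k j : ℕ) : expo d k j 2 = k - j := rfl

/-- the form with the given coefficients -/
noncomputable def formOf (d : ℕ) : (Idx (d + 1) → ℂ) →ₗ[ℂ] MvPolynomial (Fin 3) ℂ where
  toFun c := ∑ p : Idx (d + 1), monomial (expo d p.1 p.2) (c p)
  map_add' a b := by simp [Finset.sum_add_distrib]
  map_smul' r a := by simp [Finset.smul_sum, smul_monomial]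

lemma formOf_isHomogeneous (d : ℕ) (c : Idx (d + 1) → ℂ) : (formOf d c).IsHomogeneous d := by
  apply IsHomogeneous.sum
  intro p _
  apply isHomogeneous_monomial
  rw [degree_three]
  have h1 := p.1.2
  have h2 := p.2.2
  simp only [expo_zero, expo_one, expo_two]
  omega

lemma formOf_injective (d : ℕ) (c : Idx (d + 1) → ℂ) (h : formOf d c = 0) : c = 0 := by
  classical
  funext p
  have h1 := congrArg (coeff (expo d p.1 p.2)) h
  simp only [formOf, LinearMap.coe_mk, AddHom.coe_mk, coeff_sum, coeff_monomial, coeff_zero] at h1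
  rw [Finset.sum_eq_single p] at h1
  · simpa using h1
  · intro q _ hq
    rw [if_neg]
    intro he
    apply hq
    have e0 := congrArg (fun f => f 0) he
    have e1 := congrArg (fun f => f 1) he
    have e2 := congrArg (fun f => f 2) he
    simp only [expo_zero, expo_one, expo_two] at e0 e1 e2
    have h1 := p.1.2
    have h3 := q.1.2
    have hk : q.1 = p.1 := by
      apply Fin.ext; omega
    obtain ⟨pk, pj⟩ := p
    obtain ⟨qk, qj⟩ := q
    simp only at hk
    subst hk
    congr 1
    apply Fin.ext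
    exact e0
  · intro h; exact absurd (Finset.mem_univ _) h

/-- Dimension count: plane forms of degree `d` with prescribed multiplicities at points of the cuspidal
cubic exist as soon as the expected dimension is positive. -/
lemma exists_form {ι : Type*} [Fintype ι] (t : ι → ℂ) (d : ℕ) (μ : ι → ℕ)
    (h : ∑ i, μ i * (μ i + 1) < (d + 1) * (d + 2)) :
    ∃ F : MvPolynomial (Fin 3) ℂ, F.IsHomogeneous d ∧ F ≠ 0 ∧ ∀ i, μ i ≤ mult F (pt (t i)) := by
  classical
  let T : (Idx (d + 1) → ℂ) →ₗ[ℂ] ((Σ i, Idx (μ i)) → ℂ) :=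
    LinearMap.pi (fun p => (lcoeff ℂ (expo d p.2.1 p.2.2)).comp
      ((shearHom (t p.1)).toLinearMap.comp (formOf d)))
  have hcard : Module.finrank ℂ ((Σ i, Idx (μ i)) → ℂ) < Module.finrank ℂ (Idx (d + 1) → ℂ) := by
    rw [Module.finrank_fintype_fun_eq_card, Module.finrank_fintype_fun_eq_card, Fintype.card_sigma]
    have h1 := card_Idx (d + 1)
    have h2 : 2 * ∑ i, Fintype.card (Idx (μ i)) = ∑ i, μ i * (μ i + 1) := by
      rw [Finset.mul_sum]
      exact Finset.sum_congr rfl (fun i _ => card_Idx _)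
    have h3 : (d + 1) * (d + 1 + 1) = (d + 1) * (d + 2) := by ring
    omega
  obtain ⟨c, hc, hc0⟩ := (Submodule.ne_bot_iff _).mp (LinearMap.ker_ne_bot_of_finrank_lt (f := T) hcard)
  have hF0 : formOf d c ≠ 0 := fun h0 => hc0 (formOf_injective d c h0)
  refine ⟨formOf d c, formOf_isHomogeneous d c, hF0, fun i => ?_⟩
  rw [le_mult_iff hF0]
  apply mem_ker_pow_of_shear
  intro s hs
  by_contra hlt
  push Not at hlt
  have hhom := shear_isHomogeneous (formOf_isHomogeneous d c) (t i)
  have hsum := IsHomogeneous.sum_eq hhom hs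
  have h1 : T c ⟨i, ⟨⟨s 0 + s 2, hlt⟩, ⟨s 0, by simp⟩⟩⟩ = 0 := by
    rw [LinearMap.mem_ker.mp hc]; rfl
  have h2 : expo d (s 0 + s 2) (s 0) = s := by
    ext j
    fin_cases j
    · simp
    · simp; omega
    · simp
  simp only [T, LinearMap.pi_apply, LinearMap.comp_apply, h2, lcoeff_apply] at h1
  exact (mem_support_iff.mp hs) h1

end Pool.Agent.MP_008bba_ag
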