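import Pool.Agent.MP_008bba_ag.Mult

open MvPolynomial

namespace Pool.Agent.MP_008bba_ag

/-- Transfer of order of vanishing along algebra homomorphisms. -/
lemma map_mem_pow {A : Type*} [CommRing A] [Algebra ℂ A] (ψ : MvPolynomial (Fin 3) ℂ →ₐ[ℂ] A)
    (I : Ideal A) (v : Fin 3 → ℂ) (h : ∀ i, ψ (X i - C (v i)) ∈ I) {F : MvPolynomial (Fin 3) ℂ}
    {m : ℕ} (hF : F ∈ (RingHom.ker (eval v)) ^ m) : ψ F ∈ I ^ m := by
  have key : RingHom.ker (eval v) ≤ I.comap ψ := by
    intro G hG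
    rw [Ideal.mem_comap, ← Ideal.Quotient.eq_zero_iff_mem]
    have : ((Ideal.Quotient.mkₐ ℂ I).comp ψ) =
        (Algebra.ofId ℂ (A ⧸ I)).comp (aeval v : MvPolynomial (Fin 3) ℂ →ₐ[ℂ] ℂ) := by
      apply MvPolynomial.algHom_ext
      intro i
      have h2 := Ideal.Quotient.eq_zero_iff_mem.mpr (h i)
      rw [map_sub, map_sub, sub_eq_zero] at h2
      simp only [AlgHom.comp_apply, Ideal.Quotient.mkₐ_eq_mk, h2, aeval_X, Algebra.ofId_apply]
      have : (C (v i) : MvPolynomial (Fin 3) ℂ) = algebraMap ℂ _ (v i) := rfl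
      rw [this, AlgHom.commutes]
      rfl
    have h3 := congrArg (fun f => f G) this
    simp only [AlgHom.comp_apply, Ideal.Quotient.mkₐ_eq_mk, aeval_eq_eval] at h3
    rw [h3]
    rw [RingHom.mem_ker] at hG
    have h4 : (eval v : MvPolynomial (Fin 3) ℂ → ℂ) G = 0 := hG
    rw [h4, map_zero]
  have h5 : (RingHom.ker (eval v)) ^ m ≤ (I ^ m).comap ψ :=
    (Ideal.pow_right_mono key m).trans (Ideal.le_comap_pow _ m)
  exact h5 hF

lemma mult_algEquiv (τ : MvPolynomial (Fin 3) ℂ ≃ₐ[ℂ] MvPolynomial (Fin 3) ℂ)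
    (v w : Fin 3 → ℂ) (h : ∀ G, eval v (τ G) = eval w G) (F : MvPolynomial (Fin 3) ℂ) :
    mult (τ F) v = mult F w := by
  have h1 : RingHom.ker (eval w) = (RingHom.ker (eval v)).comap τ.toRingEquiv := by
    ext G
    rw [Ideal.mem_comap, RingHom.mem_ker, RingHom.mem_ker]
    exact (Eq.congr_left (h G)).symm
  unfold mult
  congr 1
  ext m
  simp only [Set.mem_ofPred_eq]
  rw [h1, ← Ideal.map_symm, ← Ideal.map_pow, Ideal.map_symm, Ideal.mem_comap]
  rfl

lemma mult_unit_mul (c : ℂ) (hc : c ≠ 0) (F : MvPolynomial (Fin 3) ℂ) (v : Fin 3 → ℂ) :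
    mult (C c * F) v = mult F v := by
  unfold mult
  congr 1
  ext m
  simp only [Set.mem_ofPred_eq]
  have : IsUnit (C c : MvPolynomial (Fin 3) ℂ) := (isUnit_iff_ne_zero.mpr hc).map C
  exact Ideal.unit_mul_mem_iff_mem _ this

/-- diagonal rescaling of the coordinates -/
noncomputable def diagHom (c : Fin 3 → ℂ) :
    MvPolynomial (Fin 3) ℂ →ₐ[ℂ] MvPolynomial (Fin 3) ℂ := aeval (fun i => C (c i) * X i)

lemma diag_comp (v w : Fin 3 → ℂ) :
    (diagHom v).comp (diagHom w) = diagHom (fun i => w i * v i) := by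
  apply MvPolynomial.algHom_ext
  intro i
  simp [diagHom, algebraMap_eq, mul_assoc]

lemma diag_one : diagHom (fun _ => 1) = AlgHom.id ℂ _ := by
  apply MvPolynomial.algHom_ext
  intro i
  simp [diagHom]

noncomputable def diag (c : Fin 3 → ℂ) (hc : ∀ i, c i ≠ 0) :
    MvPolynomial (Fin 3) ℂ ≃ₐ[ℂ] MvPolynomial (Fin 3) ℂ :=
  AlgEquiv.ofAlgHom (diagHom c) (diagHom (fun i => (c i)⁻¹))
    (by rw [diag_comp, ← diag_one]; congr 1; ext i; exact inv_mul_cancel₀ (hc i))
    (by rw [diag_comp, ← diag_one]; congr 1; ext i; exact mul_inv_cancel₀ (hc i))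

lemma diag_apply (c : Fin 3 → ℂ) (hc : ∀ i, c i ≠ 0) (G : MvPolynomial (Fin 3) ℂ) :
    diag c hc G = diagHom c G := rfl

lemma eval_diag (c : Fin 3 → ℂ) (hc : ∀ i, c i ≠ 0) (v : Fin 3 → ℂ)
    (G : MvPolynomial (Fin 3) ℂ) : eval v (diag c hc G) = eval (fun i => c i * v i) G := by
  have : ((aeval v : _ →ₐ[ℂ] ℂ).comp (diagHom c)) = (aeval (fun i => c i * v i) : _ →ₐ[ℂ] ℂ) := by
    apply MvPolynomial.algHom_ext
    intro i
    simp [diagHom]
  have := congrArg (fun f => f G) this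
  rw [diag_apply]
  simpa [aeval_eq_eval] using this

lemma mult_diag (c : Fin 3 → ℂ) (hc : ∀ i, c i ≠ 0) (v : Fin 3 → ℂ)
    (G : MvPolynomial (Fin 3) ℂ) : mult (diag c hc G) v = mult G (fun i => c i * v i) :=
  mult_algEquiv _ _ _ (fun G => eval_diag c hc v G) G

lemma diagHom_const {F : MvPolynomial (Fin 3) ℂ} {d : ℕ} (hF : F.IsHomogeneous d) (c : ℂ) :
    diagHom (fun _ => c) F = C (c ^ d) * F := by
  unfold diagHom
  conv_lhs => rw [F.as_sum]
  conv_rhs => rw [F.as_sum]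
  rw [map_sum, Finset.mul_sum]
  apply Finset.sum_congr rfl
  intro s hs
  rw [aeval_monomial, Finsupp.prod]
  simp only [mul_pow, Finset.prod_mul_distrib]
  have h1 : ∏ i ∈ s.support, (C c : MvPolynomial (Fin 3) ℂ) ^ s i = C (c ^ d) := by
    rw [Finset.prod_pow_eq_pow_sum, C_pow]
    congr 1
    have h2 := hF (mem_support_iff.mp hs)
    have h3 := congrArg (fun f => f s) (Finsupp.degree_eq_weight_one (R := ℕ) (σ := Fin 3))
    simp only [Finsupp.degree_apply] at h3
    rw [h3]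
    exact h2
  rw [h1, monomial_eq, Finsupp.prod]
  simp only [algebraMap_eq]
  ring

lemma mult_eq_of_isHomogeneous_smul {F : MvPolynomial (Fin 3) ℂ} {d : ℕ} (hF : F.IsHomogeneous d)
    (c : ℂ) (hc : c ≠ 0) (v : Fin 3 → ℂ) : mult F (c • v) = mult F v := by
  have h1 := mult_diag (fun _ => c) (fun _ => hc) v F
  have h2 : diag (fun _ => c) (fun _ => hc) F = C (c ^ d) * F := by
    rw [diag_apply, diagHom_const hF]
  rw [h2, mult_unit_mul _ (pow_ne_zero _ hc)] at h1
  rw [h1]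
  rfl

lemma mult_pow {F : MvPolynomial (Fin 3) ℂ} (hF : F ≠ 0) (v : Fin 3 → ℂ) (k : ℕ) :
    mult (F ^ k) v = k * mult F v := by
  induction k with
  | zero =>
    have h1 : (mult (1 : MvPolynomial (Fin 3) ℂ) v : ℕ) = 0 := by
      by_contra h
      have : 1 ≤ mult (1 : MvPolynomial (Fin 3) ℂ) v := by omega
      rw [le_mult_iff one_ne_zero, pow_one, RingHom.mem_ker] at this
      simp at this
    simpa using h1
  | succ k ih =>
    rw [pow_succ, mult_mul (pow_ne_zero _ hF) hF, ih]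
    ring

lemma mult_C {c : ℂ} (hc : c ≠ 0) (v : Fin 3 → ℂ) : mult (C c) v = 0 := by
  by_contra h
  have h0 : (C c : MvPolynomial (Fin 3) ℂ) ≠ 0 := by simpa using hc
  have : 1 ≤ mult (C c) v := by omega
  rw [le_mult_iff h0, pow_one, RingHom.mem_ker] at this
  simp at this
  exact hc this

/-- factors of a homogeneous polynomial are homogeneous -/
lemma mult_zero_le_totalDegree {F : MvPolynomial (Fin 3) ℂ} (hF : F ≠ 0) :
    mult F 0 ≤ F.totalDegree := by
  obtain ⟨s, hs⟩ := MvPolynomial.ne_zero_iff.mp hF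
  have h1 : F ∈ (RingHom.ker (eval (0 : Fin 3 → ℂ))) ^ (mult F 0) := (le_mult_iff hF 0 _).mp le_rfl
  rw [ker_eval_zero, mem_pow_idealOfVars_iff] at h1
  have h2 := h1 s (by simpa using hs)
  exact h2.trans (le_totalDegree (by simpa using hs))

lemma isHomogeneous_of_mult_eq {F : MvPolynomial (Fin 3) ℂ} (hF : F ≠ 0)
    (h : mult F 0 = F.totalDegree) : F.IsHomogeneous F.totalDegree := by
  have h1 : F ∈ (RingHom.ker (eval (0 : Fin 3 → ℂ))) ^ (mult F 0) := (le_mult_iff hF 0 _).mp le_rfl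
  rw [ker_eval_zero, mem_pow_idealOfVars_iff, h] at h1
  intro s hs
  have h2 := h1 s (by simpa using hs)
  have h3 : s.degree ≤ F.totalDegree := le_totalDegree (by simpa using hs)
  have : s.degree = F.totalDegree := le_antisymm h3 h2
  rw [← this, Finsupp.degree_eq_weight_one]
  rfl

lemma mult_zero_of_isHomogeneous {F : MvPolynomial (Fin 3) ℂ} (hF : F ≠ 0) {d : ℕ}
    (h : F.IsHomogeneous d) : mult F 0 = d := by
  apply le_antisymm
  · rw [← h.totalDegree hF]; exact mult_zero_le_totalDegree hF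
  · rw [le_mult_iff hF, ker_eval_zero, mem_pow_idealOfVars_iff']
    intro s hs
    exact h.coeff_eq_zero (by omega)

lemma isHomogeneous_of_mul {F G : MvPolynomial (Fin 3) ℂ} (hF : F ≠ 0) (hG : G ≠ 0) {d : ℕ}
    (h : (F * G).IsHomogeneous d) :
    F.IsHomogeneous F.totalDegree ∧ G.IsHomogeneous G.totalDegree ∧
      F.totalDegree + G.totalDegree = d := by
  have h1 := mult_zero_of_isHomogeneous (mul_ne_zero hF hG) h
  have h2 := h.totalDegree (mul_ne_zero hF hG)
  rw [mult_mul hF hG] at h1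
  rw [totalDegree_mul_of_isDomain hF hG] at h2
  have h3 := mult_zero_le_totalDegree hF
  have h4 := mult_zero_le_totalDegree hG
  exact ⟨isHomogeneous_of_mult_eq hF (by omega), isHomogeneous_of_mult_eq hG (by omega), h2⟩


/-! ### The cuspidal cubic -/

/-- the point `(t : 1 : t^3)` of the cuspidal cubic -/
def pt (t : ℂ) : Fin 3 → ℂ := ![t, 1, t ^ 3]

noncomputable def cusp : MvPolynomial (Fin 3) ℂ := X 0 ^ 3 - X 1 ^ 2 * X 2

/-- restriction to the smooth part of the cuspidal cubic -/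
noncomputable def res : MvPolynomial (Fin 3) ℂ →ₐ[ℂ] Polynomial ℂ :=
  aeval ![Polynomial.X, 1, Polynomial.X ^ 3]

lemma cusp_isHomogeneous : cusp.IsHomogeneous 3 := by
  unfold cusp
  apply IsHomogeneous.sub
  · simpa using (isHomogeneous_X ℂ (0 : Fin 3)).pow 3
  · simpa using ((isHomogeneous_X ℂ (1 : Fin 3)).pow 2).mul (isHomogeneous_X ℂ (2 : Fin 3))

lemma cusp_ne_zero : cusp ≠ 0 := by
  intro h
  have := congrArg (eval ![(1 : ℂ), 0, 0]) h
  simp [cusp] at this

lemma res_dvd {F : MvPolynomial (Fin 3) ℂ} (hF : F ≠ 0) (t : ℂ) :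
    (Polynomial.X - Polynomial.C t) ^ (mult F (pt t)) ∣ res F := by
  have h1 : F ∈ (RingHom.ker (eval (pt t))) ^ (mult F (pt t)) := (le_mult_iff hF _ _).mp le_rfl
  have h2 := map_mem_pow res (Ideal.span {Polynomial.X - Polynomial.C t}) (pt t) ?_ h1
  · rw [Ideal.span_singleton_pow, Ideal.mem_span_singleton] at h2
    exact h2
  · intro i
    rw [Ideal.mem_span_singleton]
    have hC : ∀ a : ℂ, res (C a) = Polynomial.C a := by
      intro a
      exact res.commutes a
    fin_cases i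
    · simp [res, pt]
    · simp [res, pt]
    · simp only [Fin.reduceFinMk, map_sub, hC]
      have : Polynomial.C (pt t 2) = (Polynomial.C t) ^ 3 := by simp [pt]
      rw [this]
      simp only [res, aeval_X, Matrix.cons_val]
      exact sub_dvd_pow_sub_pow _ _ _

lemma res_monomial (s : Fin 3 →₀ ℕ) (c : ℂ) :
    res (monomial s c) = Polynomial.C c * Polynomial.X ^ (s 0 + 3 * s 2) := by
  rw [res, aeval_monomial, Finsupp.prod_fintype _ _ (by intro i; simp)]
  simp only [Fin.prod_univ_three, Matrix.cons_val, one_pow, mul_one]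
  rw [← pow_mul, ← pow_add]
  rfl

lemma degree_three (s : Fin 3 →₀ ℕ) : s.degree = s 0 + s 1 + s 2 := by
  rw [Finsupp.degree_eq_sum]
  simp [Fin.sum_univ_three]

lemma IsHomogeneous.sum_eq {F : MvPolynomial (Fin 3) ℂ} {d : ℕ} (hF : F.IsHomogeneous d)
    {s : Fin 3 →₀ ℕ} (hs : s ∈ F.support) : s 0 + s 1 + s 2 = d := by
  rw [← degree_three]
  by_contra h
  exact (mem_support_iff.mp hs) (hF.coeff_eq_zero h)

lemma res_natDegree {F : MvPolynomial (Fin 3) ℂ} {d : ℕ} (hF : F.IsHomogeneous d) :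
    (res F).natDegree ≤ 3 * d := by
  rw [F.as_sum, map_sum]
  apply Polynomial.natDegree_sum_le_of_forall_le
  intro s hs
  rw [res_monomial]
  refine (Polynomial.natDegree_C_mul_X_pow_le _ _).trans ?_
  have := IsHomogeneous.sum_eq hF hs
  omega

lemma res_coeff {F : MvPolynomial (Fin 3) ℂ} {d : ℕ} (hF : F.IsHomogeneous d) (hd : 0 < d) :
    (res F).coeff (3 * d - 1) = 0 := by
  rw [F.as_sum, map_sum, Polynomial.finsetSum_coeff]
  apply Finset.sum_eq_zero
  intro s hs
  rw [res_monomial, Polynomial.coeff_C_mul_X_pow, if_neg]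
  have := IsHomogeneous.sum_eq hF hs
  omega

/-- the key divisibility: a form vanishing on the cuspidal cubic is divisible by its equation -/
lemma cusp_dvd {F : MvPolynomial (Fin 3) ℂ} {d : ℕ} (hF : F.IsHomogeneous d) (h : res F = 0) :
    cusp ∣ F := by
  rw [← Ideal.mem_span_singleton, ← Ideal.Quotient.eq_zero_iff_mem]
  set Q := MvPolynomial (Fin 3) ℂ ⧸ Ideal.span {cusp}
  set q : MvPolynomial (Fin 3) ℂ →ₐ[ℂ] Q := Ideal.Quotient.mkₐ ℂ (Ideal.span {cusp}) with hq
  have hrel : q (X 0) ^ 3 = q (X 1) ^ 2 * q (X 2) := by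
    rw [← map_pow, ← map_pow, ← map_mul, ← sub_eq_zero, ← map_sub]
    exact Ideal.Quotient.eq_zero_iff_mem.mpr (Ideal.subset_span rfl)
  let u : ℕ → Q := fun k => q (X 0) ^ (k % 3) * q (X 1) ^ (d - k % 3 - k / 3) * q (X 2) ^ (k / 3)
  let U : Polynomial ℂ →ₗ[ℂ] Q := Polynomial.lsum (fun k => (LinearMap.toSpanSingleton ℂ Q (u k)))
  have hU : ∀ (k : ℕ) (c : ℂ), U (Polynomial.C c * Polynomial.X ^ k) = c • u k := by
    intro k c
    rw [Polynomial.C_mul_X_pow_eq_monomial]
    simp only [U, Polynomial.lsum_apply]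
    rw [Polynomial.sum_monomial_index]
    · simp
    · simp
  have hmon : ∀ s : Fin 3 →₀ ℕ, s 0 + s 1 + s 2 = d → ∀ c : ℂ,
      q (monomial s c) = U (res (monomial s c)) := by
    intro s hs c
    rw [res_monomial, hU]
    have h1 : q (monomial s c) = c • (q (X 0) ^ s 0 * q (X 1) ^ s 1 * q (X 2) ^ s 2) := by
      rw [monomial_eq, Finsupp.prod_fintype _ _ (by intro i; simp), Fin.prod_univ_three,
        map_mul, map_mul, map_mul, map_pow, map_pow, map_pow]
      have hqC : q (C c) = algebraMap ℂ Q c := q.commutes c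
      rw [hqC]
      exact (Algebra.smul_def c _).symm
    rw [h1]
    congr 1
    simp only [u]
    have e1 : (s 0 + 3 * s 2) % 3 = s 0 % 3 := by omega
    have e2 : (s 0 + 3 * s 2) / 3 = s 0 / 3 + s 2 := by omega
    have e3 : d - s 0 % 3 - (s 0 / 3 + s 2) = s 1 + 2 * (s 0 / 3) := by omega
    rw [e1, e2, e3]
    conv_lhs => rw [← Nat.mod_add_div (s 0) 3]
    rw [pow_add, pow_mul, hrel, mul_pow, ← pow_mul, pow_add, pow_add]
    ring
  have hkey : q F = U (res F) := by
    rw [F.as_sum, map_sum, map_sum, map_sum]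
    apply Finset.sum_congr rfl
    intro s hs
    exact hmon s (IsHomogeneous.sum_eq hF hs) _
  change q F = 0
  rw [hkey, h, map_zero]

end Pool.Agent.MP_008bba_ag
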