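import Mathlib

open MvPolynomial
open scoped LinearAlgebra.Projectivization

namespace Pool.Agent.MP_008bba_ag

/-- Order of vanishing at the point `v` of affine 3-space of the polynomial `F`: the largest `m`
such that `F` lies in the `m`-th power of the maximal ideal of all polynomials vanishing at `v`. -/
noncomputable def mult (F : MvPolynomial (Fin 3) ℂ) (v : Fin 3 → ℂ) : ℕ :=
  sSup {m : ℕ | F ∈ (RingHom.ker (MvPolynomial.eval v)) ^ m}

/-- The multiplicity of the plane curve `F = 0` (for a form `F` in three variables) at the point `p` of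
the complex projective plane: the order of vanishing of `F` at a vector representing `p`. -/
noncomputable def multAt (F : MvPolynomial (Fin 3) ℂ) (p : ℙ ℂ (Fin 3 → ℂ)) : ℕ :=
  mult F p.rep

/-- Self-intersection `d ^ 2 - ∑ m_p ^ 2` of the strict transform of the plane curve `F = 0` of
degree `d` on the blow-up of the projective plane at the finite set `T` of points, where `m_p` is the
multiplicity of the curve at `p`. -/
noncomputable def selfInt (T : Finset (ℙ ℂ (Fin 3 → ℂ))) (F : MvPolynomial (Fin 3) ℂ) : ℤ :=
  (F.totalDegree : ℤ) ^ 2 - ∑ p ∈ T, (multAt F p : ℤ) ^ 2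

/-- Arithmetic genus `(d - 1)(d - 2) / 2 - ∑ m_p (m_p - 1) / 2` of the strict transform of the
plane curve `F = 0` of degree `d` on the blow-up of the projective plane at the finite set `T`. -/
noncomputable def arithGenus (T : Finset (ℙ ℂ (Fin 3 → ℂ))) (F : MvPolynomial (Fin 3) ℂ) : ℤ :=
  ((F.totalDegree - 1).choose 2 : ℤ) - ∑ p ∈ T, ((multAt F p).choose 2 : ℤ)

end Pool.Agent.MP_008bba_ag
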