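import Pool.Agent.MP_008bba_ag.Count

open MvPolynomial

namespace Pool.Agent.MP_008bba_ag

lemma eval_pderiv_of_mem_sq {F : MvPolynomial (Fin 3) ℂ} {v : Fin 3 → ℂ}
    (h : F ∈ (RingHom.ker (eval v)) ^ 2) (i : Fin 3) : eval v (pderiv i F) = 0 := by
  rw [pow_two] at h
  refine Submodule.mul_induction_on h ?_ ?_
  · intro a ha b hb
    rw [RingHom.mem_ker] at ha hb
    rw [Derivation.leibniz]
    simp [ha, hb]
  · intro a b ha hb
    rw [map_add, map_add, ha, hb, add_zero]

lemma mult_cusp_le (t : ℂ) : mult cusp (pt t) ≤ 1 := by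
  by_contra h
  push Not at h
  have h2 : 2 ≤ mult cusp (pt t) := h
  rw [le_mult_iff cusp_ne_zero] at h2
  have h3 := eval_pderiv_of_mem_sq h2 2
  simp [cusp, pt, pderiv_X] at h3

lemma totalDegree_pos_of_not_isUnit {F : MvPolynomial (Fin 3) ℂ} (hF : F ≠ 0) (hu : ¬ IsUnit F) :
    0 < F.totalDegree := by
  by_contra h
  have h0 : F.totalDegree = 0 := by omega
  rw [totalDegree_eq_zero_iff_eq_C] at h0
  apply hu
  rw [h0]
  apply IsUnit.map C
  rw [isUnit_iff_ne_zero]
  intro hc
  rw [hc, C_0] at h0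
  exact hF h0

/-- the nine parameters -/
def par (i : Fin 9) : ℝ := ((i : ℕ) + 1 : ℝ) ^ 2

lemma par_pos (i : Fin 9) : 0 < par i := by unfold par; positivity

lemma par_injective : Function.Injective par := by
  intro i j h
  unfold par at h
  have h1 : ((i : ℕ) + 1 : ℝ) = ((j : ℕ) + 1 : ℝ) := by
    rw [sq_eq_sq₀ (by positivity) (by positivity)] at h
    exact h
  have h2 : ((i : ℕ) : ℝ) = ((j : ℕ) : ℝ) := by linarith
  apply Fin.ext
  exact_mod_cast h2

/-- the multiplicities -/
def mu (n : ℕ) (i : Fin 9) : ℕ :=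
  if i = 0 then n * (n + 1) + n else if i = 1 then n * (n + 1) - (n + 1) else n * (n + 1)

lemma exists_family (n : ℕ) (hn : 1 ≤ n) :
    ∃ (F : MvPolynomial (Fin 3) ℂ) (e : ℕ), F.IsHomogeneous e ∧ Irreducible F ∧ n ≤ e ∧
      ∑ i, mult F (pt (par i)) + 1 = 3 * e ∧ e ^ 2 < ∑ i, mult F (pt (par i)) ^ 2 := by
  set N := n * (n + 1) with hN
  have hNn : n + 1 ≤ N := by nlinarith
  -- the form of degree 3N
  obtain ⟨F₀, hF₀, hF₀0, hμ⟩ := exists_form (fun i => (par i : ℂ)) (3 * N) (mu n) (by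
    simp only [Fin.sum_univ_succ, mu, Fin.sum_univ_zero]
    simp only [if_true, if_false, Fin.succ_one_eq_two, Fin.succ_zero_eq_one,
      Fin.reduceEq, Fin.isValue, Fin.reduceSucc]
    rw [← hN]
    obtain ⟨m, hm⟩ := Nat.exists_eq_add_of_le hNn
    rw [hm, Nat.add_sub_cancel_left]
    have : n + 1 + m = n * (n + 1) := by omega
    nlinarith)
  have hcu : ¬ IsUnit cusp := by
    intro hu
    have h1 := (MvPolynomial.isUnit_iff_eq_C_of_isReduced.mp hu)
    obtain ⟨r, _, hr⟩ := h1
    have h2 := cusp_isHomogeneous.totalDegree cusp_ne_zero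
    rw [hr, totalDegree_C] at h2
    omega
  obtain ⟨k, F, hFD, hFk⟩ := WfDvdMonoid.max_power_factor' hF₀0 hcu
  have hF0 : F ≠ 0 := by
    rintro rfl
    exact hF₀0 (by simpa using hFk)
  have hck0 : cusp ^ k ≠ 0 := pow_ne_zero _ cusp_ne_zero
  have hhom := isHomogeneous_of_mul hck0 hF0 (hFk ▸ hF₀)
  have hdk : (cusp ^ k).totalDegree = 3 * k := by
    have := (cusp_isHomogeneous.pow k).totalDegree hck0
    exact this
  rw [hdk] at hhom
  set e := F.totalDegree with he
  obtain ⟨-, hFe, hke⟩ := hhom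
  have hmult : ∀ i, mu n i ≤ k + mult F (pt (par i)) := by
    intro i
    have h1 := hμ i
    rw [hFk, mult_mul hck0 hF0, mult_pow cusp_ne_zero] at h1
    have h2 := mult_cusp_le (par i)
    have h3 : k * mult cusp (pt (par i)) ≤ k * 1 := Nat.mul_le_mul_left k h2
    omega
  obtain ⟨hle, hne⟩ := kdeg par par_pos par_injective hFe hF0 hFD
  set m : Fin 9 → ℕ := fun i => mult F (pt (par i)) with hm
  have hm0 : N + n ≤ k + m 0 := by simpa [mu, hN] using hmult 0
  have hm1 : N - (n + 1) ≤ k + m 1 := by simpa [mu, hN] using hmult 1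
  have hm2 : N ≤ k + m 2 := by simpa [mu, hN] using hmult 2
  have hm3 : N ≤ k + m 3 := by simpa [mu, hN] using hmult 3
  have hm4 : N ≤ k + m 4 := by simpa [mu, hN] using hmult 4
  have hm5 : N ≤ k + m 5 := by simpa [mu, hN] using hmult 5
  have hm6 : N ≤ k + m 6 := by simpa [mu, hN] using hmult 6
  have hm7 : N ≤ k + m 7 := by simpa [mu, hN] using hmult 7
  have hm8 : N ≤ k + m 8 := by simpa [mu, hN] using hmult 8
  have hsum : ∑ i, mult F (pt (par i)) =
      m 0 + m 1 + m 2 + m 3 + m 4 + m 5 + m 6 + m 7 + m 8 := by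
    rw [Fin.sum_univ_castSucc, Fin.sum_univ_eight]; rfl
  have hsum2 : ∑ i, mult F (pt (par i)) ^ 2 =
      m 0 ^ 2 + m 1 ^ 2 + m 2 ^ 2 + m 3 ^ 2 + m 4 ^ 2 + m 5 ^ 2 + m 6 ^ 2 + m 7 ^ 2 + m 8 ^ 2 := by
    rw [Fin.sum_univ_castSucc, Fin.sum_univ_eight]; rfl
  -- the degree of F against the cubic is exactly one
  have hne' : ∑ i, mult F (pt (par i)) ≠ 3 * e := by
    intro heq
    have he0 := hne heq
    have hconst : F = C (coeff 0 F) := totalDegree_eq_zero_iff_eq_C.mp (he ▸ he0)
    have hc : coeff 0 F ≠ 0 := by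
      intro h
      rw [h, C_0] at hconst
      exact hF0 hconst
    have h0 : m 0 = 0 := by
      simp only [hm]
      rw [hconst]
      exact mult_C hc _
    omega
  have hκ : ∑ i, mult F (pt (par i)) + 1 = 3 * e := by
    rw [hsum] at hle hne' ⊢
    omega
  rw [hsum] at hκ
  have e0 : k + m 0 = N + n := by omega
  have e1 : k + m 1 + (n + 1) = N := by omega
  have e2 : k + m 2 = N := by omega
  have e3 : k + m 3 = N := by omega
  have e4 : k + m 4 = N := by omega
  have e5 : k + m 5 = N := by omega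
  have e6 : k + m 6 = N := by omega
  have e7 : k + m 7 = N := by omega
  have e8 : k + m 8 = N := by omega
  have hen : n ≤ e := by omega
  refine ⟨F, e, hFe, ?_, hen, by rw [hsum]; exact hκ, ?_⟩
  · refine ⟨?_, ?_⟩
    · intro hu
      obtain ⟨r, _, hr⟩ := (MvPolynomial.isUnit_iff_eq_C_of_isReduced.mp hu)
      have : e = 0 := by rw [he, hr, totalDegree_C]
      omega
    · intro G H hGH
      by_contra hcon
      push Not at hcon
      obtain ⟨hGu, hHu⟩ := hcon
      have hG0 : G ≠ 0 := by rintro rfl; exact hF0 (by simpa using hGH)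
      have hH0 : H ≠ 0 := by rintro rfl; exact hF0 (by simpa using hGH)
      obtain ⟨hGh, hHh, hdeg⟩ := isHomogeneous_of_mul hG0 hH0 (hGH ▸ hFe)
      have hGp := totalDegree_pos_of_not_isUnit hG0 hGu
      have hHp := totalDegree_pos_of_not_isUnit hH0 hHu
      have hGD : ¬ cusp ∣ G := fun h => hFD (hGH ▸ h.mul_right H)
      have hHD : ¬ cusp ∣ H := fun h => hFD (hGH ▸ h.mul_left G)
      obtain ⟨hG1, hG2⟩ := kdeg par par_pos par_injective hGh hG0 hGD
      obtain ⟨hH1, hH2⟩ := kdeg par par_pos par_injective hHh hH0 hHD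
      have hG3 : ∑ i, mult G (pt (par i)) ≠ 3 * G.totalDegree := fun h => by
        have := hG2 h; omega
      have hH3 : ∑ i, mult H (pt (par i)) ≠ 3 * H.totalDegree := fun h => by
        have := hH2 h; omega
      have hadd : ∑ i, mult F (pt (par i)) =
          ∑ i, mult G (pt (par i)) + ∑ i, mult H (pt (par i)) := by
        rw [← Finset.sum_add_distrib]
        apply Finset.sum_congr rfl
        intro i _
        rw [hGH, mult_mul hG0 hH0]
      rw [hsum] at hadd
      omega
  · rw [hsum2]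
    have h3e : e + 3 * k = 3 * N := by omega
    zify at e0 e1 e2 e3 e4 e5 e6 e7 e8 h3e hN ⊢
    have f0 : (m 0 : ℤ) = N + n - k := by linarith
    have f1 : (m 1 : ℤ) = N - (n + 1) - k := by linarith
    have f2 : (m 2 : ℤ) = N - k := by linarith
    have f3 : (m 3 : ℤ) = N - k := by linarith
    have f4 : (m 4 : ℤ) = N - k := by linarith
    have f5 : (m 5 : ℤ) = N - k := by linarith
    have f6 : (m 6 : ℤ) = N - k := by linarith
    have f7 : (m 7 : ℤ) = N - k := by linarith
    have f8 : (m 8 : ℤ) = N - k := by linarith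
    have f9 : (e : ℤ) = 3 * (N - k) := by linarith
    rw [f0, f1, f2, f3, f4, f5, f6, f7, f8, f9]
    nlinarith

end Pool.Agent.MP_008bba_ag
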