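import Pool.Agent.MP_008bba_ag.Sq

open MvPolynomial
open scoped LinearAlgebra.Projectivization

namespace Pool.Agent.MP_008bba_ag

/-- sign attached to a boolean -/
def sg (b : Bool) : ℂ := if b then -1 else 1

/-- the 36 representative vectors `(± a, 1, ± a^3)`, `a = 1, …, 9` -/
def vec (i : Fin 9) (b c : Bool) : Fin 3 → ℂ :=
  ![sg b * ((i : ℕ) + 1), 1, sg c * ((i : ℕ) + 1) ^ 3]

lemma sg_ne (b : Bool) : sg b ≠ 0 := by cases b <;> simp [sg]

lemma ip_ne (i : Fin 9) : ((i : ℕ) + 1 : ℂ) ≠ 0 := by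
  exact Nat.cast_add_one_ne_zero (i : ℕ)

lemma vec_ne (i : Fin 9) (b c : Bool) (j : Fin 3) : vec i b c j ≠ 0 := by
  fin_cases j
  · simpa [vec] using ⟨sg_ne b, ip_ne i⟩
  · simp [vec]
  · simpa [vec] using ⟨sg_ne c, ip_ne i⟩

lemma vec_ne_zero (i : Fin 9) (b c : Bool) : vec i b c ≠ 0 := by
  intro h
  exact vec_ne i b c 1 (by rw [h]; rfl)

lemma vec_sq (i : Fin 9) (b c : Bool) : (fun j => vec i b c j ^ 2) = pt (par i) := by
  have h : ∀ b, sg b ^ 2 = 1 := by intro b; cases b <;> simp [sg]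
  funext j
  fin_cases j
  · simp [vec, pt, par, mul_pow, h]
  · simp [vec, pt]
  · simp only [vec, pt, par, mul_pow, h, one_mul, Fin.reduceFinMk, Matrix.cons_val]
    push_cast
    ring

/-- the point of the plane -/
noncomputable def point (x : Fin 9 × Bool × Bool) : ℙ ℂ (Fin 3 → ℂ) :=
  Projectivization.mk ℂ (vec x.1 x.2.1 x.2.2) (vec_ne_zero _ _ _)

lemma point_injective : Function.Injective point := by
  rintro ⟨i, b, c⟩ ⟨i', b', c'⟩ h
  rw [point, point, Projectivization.mk_eq_mk_iff'] at h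
  obtain ⟨a, ha⟩ := h
  have h1 := congrArg (fun f => f 1) ha
  simp only [vec, Pi.smul_apply, smul_eq_mul, Matrix.cons_val] at h1
  rw [mul_one] at h1
  subst h1
  rw [one_smul] at ha
  have h0 := congrArg (fun f => f 0) ha
  have h2 := congrArg (fun f => f 2) ha
  simp only [vec, Matrix.cons_val] at h0 h2
  have hsq : ((i' : ℕ) + 1 : ℂ) ^ 2 = ((i : ℕ) + 1 : ℂ) ^ 2 := by
    have h : ∀ b, sg b ^ 2 = 1 := by intro b; cases b <;> simp [sg]
    have := congrArg (· ^ 2) h0
    simpa [mul_pow, h] using this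
  have hii : i = i' := by
    have h3 : (((i' : ℕ) + 1) ^ 2 : ℕ) = (((i : ℕ) + 1) ^ 2 : ℕ) := by exact_mod_cast hsq
    have h4 := Nat.pow_left_injective (two_ne_zero) h3
    apply Fin.ext
    simp at h4
    omega
  subst hii
  have hb : sg b' = sg b := mul_right_cancel₀ (ip_ne i) h0
  have hc : sg c' = sg c := mul_right_cancel₀ (pow_ne_zero 3 (ip_ne i)) h2
  have hs : ∀ x y, sg x = sg y → x = y := by
    intro x y hxy
    cases x <;> cases y <;> simp [sg] at hxy ⊢
    · norm_num [eq_neg_iff_add_eq_zero] at hxy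
    · norm_num [neg_eq_iff_add_eq_zero] at hxy
  rw [hs _ _ hb, hs _ _ hc]

lemma multAt_mk {F : MvPolynomial (Fin 3) ℂ} {d : ℕ} (hF : F.IsHomogeneous d) (v : Fin 3 → ℂ)
    (hv : v ≠ 0) : multAt F (Projectivization.mk ℂ v hv) = mult F v := by
  obtain ⟨a, ha⟩ := Projectivization.exists_smul_eq_mk_rep ℂ v hv
  rw [multAt, ← ha]
  exact mult_eq_of_isHomogeneous_smul hF (a : ℂ) a.ne_zero v

lemma mult_flip (j : Fin 3) (F : MvPolynomial (Fin 3) ℂ) (v : Fin 3 → ℂ) :
    mult (flip j F) v = mult F (fun i => sgn j i * v i) := mult_diag _ _ _ _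

lemma flip_vec_zero (i : Fin 9) (b c : Bool) :
    (fun j => sgn 0 j * vec i b c j) = vec i (!b) c := by
  funext j
  fin_cases j
  · cases b <;> simp [sgn, vec, sg]
  · simp [sgn, vec]
  · simp [sgn, vec]

lemma flip_vec_two (i : Fin 9) (b c : Bool) :
    (fun j => sgn 2 j * vec i b c j) = vec i b (!c) := by
  funext j
  fin_cases j
  · simp [sgn, vec]
  · simp [sgn, vec]
  · cases c <;> simp [sgn, vec, sg]

lemma mult_flip_zero (K : MvPolynomial (Fin 3) ℂ) (i : Fin 9) (b c : Bool) :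
    mult (flip 0 K) (vec i b c) = mult K (vec i (!b) c) := by
  rw [mult_flip, flip_vec_zero]

lemma mult_flip_two (K : MvPolynomial (Fin 3) ℂ) (i : Fin 9) (b c : Bool) :
    mult (flip 2 K) (vec i b c) = mult K (vec i b (!c)) := by
  rw [mult_flip, flip_vec_two]

lemma mult_nrm {H : MvPolynomial (Fin 3) ℂ} (hH : H ≠ 0) (i : Fin 9) :
    mult (nrm H) (vec i false false) = mult H (vec i false false) + mult H (vec i true false) +
      mult H (vec i false true) + mult H (vec i true true) := by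
  have h0 := flip_ne_zero hH 0
  have h2 := flip_ne_zero hH 2
  have h02 := flip_ne_zero h2 0
  unfold nrm
  rw [mult_mul (mul_ne_zero hH h0) (mul_ne_zero h2 h02), mult_mul hH h0, mult_mul h2 h02,
    mult_flip_zero, mult_flip_zero, mult_flip_two, mult_flip_two]
  simp only [Bool.not_false]
  ring

/-- Irreducible factors of the pulled back forms. -/
lemma exists_family_sq (n : ℕ) (hn : 1 ≤ n) :
    ∃ (H : MvPolynomial (Fin 3) ℂ), H.IsHomogeneous H.totalDegree ∧ Irreducible H ∧
      (H.totalDegree : ℤ) ^ 2 < ∑ x : Fin 9 × Bool × Bool, (mult H (vec x.1 x.2.1 x.2.2) : ℤ) ^ 2 ∧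
      3 * (n : ℤ) - 2 ≤ 2 * (∑ x : Fin 9 × Bool × Bool, (mult H (vec x.1 x.2.1 x.2.2) : ℤ) - 3 * H.totalDegree) := by
  obtain ⟨F, d, hF, hFi, hnd, hκ, hneg⟩ := exists_family n hn
  have hF0 := hFi.ne_zero
  have hG0 := sq_ne_zero hF0
  have hGd := (sq_isHomogeneous hF).totalDegree hG0
  have hGu : ¬ IsUnit (sq F) := by
    intro hu
    obtain ⟨r, _, hr⟩ := (MvPolynomial.isUnit_iff_eq_C_of_isReduced.mp hu)
    rw [hr, totalDegree_C] at hGd
    omega
  obtain ⟨H, hHi, hHd⟩ := WfDvdMonoid.exists_irreducible_factor hGu hG0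
  have hH0 := hHi.ne_zero
  obtain ⟨a, ha, c, hc, hnrm⟩ := factor_sq hF hFi hHi hHd
  obtain ⟨W, hW⟩ := hHd
  have hW0 : W ≠ 0 := by rintro rfl; exact hG0 (by simpa using hW)
  obtain ⟨hHh, -, -⟩ := isHomogeneous_of_mul hH0 hW0 (hW ▸ sq_isHomogeneous hF)
  set e := H.totalDegree with he
  -- degrees
  have hdeg : 2 * e = a * d := by
    have h1 := (nrm_isHomogeneous hHh).totalDegree (nrm_ne_zero hH0)
    have h2 := (((sq_isHomogeneous hF).pow a).C_mul c).totalDegree
      (mul_ne_zero (by simpa using hc) (pow_ne_zero a hG0))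
    rw [← hnrm, h1] at h2
    have : 2 * (2 * e) = 2 * (a * d) := by rw [h2]; ring
    omega
  -- multiplicities
  have hmul : ∀ i, mult H (vec i false false) + mult H (vec i true false) +
      mult H (vec i false true) + mult H (vec i true true) = a * mult F (pt (par i)) := by
    intro i
    rw [← mult_nrm hH0, hnrm, mult_unit_mul c hc, mult_pow hG0, mult_sq hF0 (vec_ne _ _ _),
      vec_sq]
  have hsum : ∀ f : Fin 9 × Bool × Bool → ℤ, ∑ x, f x = ∑ i, (f (i, false, false) +
      f (i, true, false) + f (i, false, true) + f (i, true, true)) := by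
    intro f
    rw [Fintype.sum_prod_type]
    apply Finset.sum_congr rfl
    intro i _
    rw [Fintype.sum_prod_type]
    simp only [Fintype.sum_bool]
    ring
  refine ⟨H, hHh, hHi, ?_, ?_⟩
  · rw [hsum]
    have h4 : ∀ i, ((a : ℤ) * mult F (pt (par i))) ^ 2 ≤
        4 * ((mult H (vec i false false) : ℤ) ^ 2 + (mult H (vec i true false) : ℤ) ^ 2 +
          (mult H (vec i false true) : ℤ) ^ 2 + (mult H (vec i true true) : ℤ) ^ 2) := by
      intro i
      have h5 := hmul i
      zify at h5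
      rw [← h5]
      nlinarith [sq_nonneg ((mult H (vec i false false) : ℤ) - mult H (vec i true false)),
        sq_nonneg ((mult H (vec i false false) : ℤ) - mult H (vec i false true)),
        sq_nonneg ((mult H (vec i false false) : ℤ) - mult H (vec i true true)),
        sq_nonneg ((mult H (vec i true false) : ℤ) - mult H (vec i false true)),
        sq_nonneg ((mult H (vec i true false) : ℤ) - mult H (vec i true true)),
        sq_nonneg ((mult H (vec i false true) : ℤ) - mult H (vec i true true))]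
    have h6 := Finset.sum_le_sum (fun i (_ : i ∈ Finset.univ) => h4 i)
    rw [← Finset.mul_sum] at h6
    have h7 : ∑ i, ((a : ℤ) * mult F (pt (par i))) ^ 2 =
        (a : ℤ) ^ 2 * ∑ i, (mult F (pt (par i)) : ℤ) ^ 2 := by
      rw [Finset.mul_sum]
      exact Finset.sum_congr rfl (fun i _ => by ring)
    rw [h7] at h6
    zify at hneg hdeg ha
    have h8 : (a : ℤ) ^ 2 * (d : ℤ) ^ 2 < (a : ℤ) ^ 2 * ∑ i, (mult F (pt (par i)) : ℤ) ^ 2 :=
      mul_lt_mul_of_pos_left hneg (by positivity)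
    have h9 : 4 * (e : ℤ) ^ 2 = (a : ℤ) ^ 2 * (d : ℤ) ^ 2 := by
      have : (2 * (e : ℤ)) ^ 2 = ((a : ℤ) * d) ^ 2 := by rw [hdeg]
      nlinarith
    linarith
  · rw [hsum]
    have h10 : ∑ i, ((mult H (vec i false false) : ℤ) + (mult H (vec i true false) : ℤ) +
          (mult H (vec i false true) : ℤ) + (mult H (vec i true true) : ℤ)) =
        (a : ℤ) * (3 * d - 1) := by
      have h11 : ∀ i, ((mult H (vec i false false) : ℤ) + (mult H (vec i true false) : ℤ) +
          (mult H (vec i false true) : ℤ) + (mult H (vec i true true) : ℤ)) =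
          (a : ℤ) * mult F (pt (par i)) := by
        intro i
        exact_mod_cast hmul i
      rw [Finset.sum_congr rfl (fun i _ => h11 i), ← Finset.mul_sum]
      congr 1
      zify at hκ
      linarith
    rw [h10]
    zify at hdeg ha hnd
    have : 2 * ((a : ℤ) * (3 * d - 1) - 3 * e) = (a : ℤ) * (3 * d - 2) := by
      nlinarith
    rw [this]
    nlinarith

/-- the 36 points -/
noncomputable def pts : Finset (ℙ ℂ (Fin 3 → ℂ)) := Finset.univ.map ⟨point, point_injective⟩

lemma sum_le_of_pts_subset {T : Finset (ℙ ℂ (Fin 3 → ℂ))} (hT : pts ⊆ T)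
    {H : MvPolynomial (Fin 3) ℂ} {d : ℕ} (hH : H.IsHomogeneous d) (f : ℕ → ℤ) (hf : ∀ m, 0 ≤ f m) :
    ∑ x : Fin 9 × Bool × Bool, f (mult H (vec x.1 x.2.1 x.2.2)) ≤ ∑ p ∈ T, f (multAt H p) := by
  have h1 : ∑ x : Fin 9 × Bool × Bool, f (mult H (vec x.1 x.2.1 x.2.2)) =
      ∑ p ∈ pts, f (multAt H p) := by
    rw [pts, Finset.sum_map]
    apply Finset.sum_congr rfl
    intro x _
    change _ = f (multAt H (point x))
    rw [point, multAt_mk hH]
  rw [h1]
  exact Finset.sum_le_sum_of_subset_of_nonneg hT (fun p _ _ => hf _)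

lemma two_mul_choose (m : ℕ) : 2 * ((m.choose 2 : ℕ) : ℤ) = (m : ℤ) * (m - 1) := by
  cases m with
  | zero => simp
  | succ m =>
    have h3 : ((m + 1).choose 2) * 2 = (m + 1) * m := by
      rw [Nat.choose_two_right]
      simpa using Nat.div_mul_cancel (Nat.even_mul_pred_self (m + 1)).two_dvd
    zify at h3
    push_cast
    linarith

lemma adjunction (T : Finset (ℙ ℂ (Fin 3 → ℂ))) {H : MvPolynomial (Fin 3) ℂ}
    (hdeg : 1 ≤ H.totalDegree) : 2 * arithGenus T H - 2 - selfInt T H =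
      ∑ p ∈ T, (multAt H p : ℤ) - 3 * H.totalDegree := by
  unfold arithGenus selfInt
  obtain ⟨e, he⟩ := Nat.exists_eq_add_of_le hdeg
  rw [he, Nat.add_sub_cancel_left, mul_sub, Finset.mul_sum, two_mul_choose e]
  have h4 : ∑ p ∈ T, 2 * (((multAt H p).choose 2 : ℕ) : ℤ) =
      ∑ p ∈ T, (multAt H p : ℤ) ^ 2 - ∑ p ∈ T, (multAt H p : ℤ) := by
    rw [← Finset.sum_sub_distrib]
    apply Finset.sum_congr rfl
    intro p _
    rw [two_mul_choose]
    ring
  rw [h4]
  push_cast
  ring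

/-- On every further blow-up there are negative curves with `K . C` arbitrarily large. -/
lemma exists_negative {T : Finset (ℙ ℂ (Fin 3 → ℂ))} (hT : pts ⊆ T) (n : ℕ) (hn : 1 ≤ n) :
    ∃ H : MvPolynomial (Fin 3) ℂ, H.IsHomogeneous H.totalDegree ∧ Irreducible H ∧
      selfInt T H < 0 ∧ 3 * (n : ℤ) - 2 ≤ 2 * (2 * arithGenus T H - 2 - selfInt T H) := by
  obtain ⟨H, hH, hHi, hneg, hK⟩ := exists_family_sq n hn
  have h2 := sum_le_of_pts_subset hT hH (fun m => (m : ℤ) ^ 2) (fun m => sq_nonneg (m : ℤ))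
  have h1 := sum_le_of_pts_subset hT hH (fun m => (m : ℤ)) (fun m => Int.natCast_nonneg m)
  have hdeg : 1 ≤ H.totalDegree := totalDegree_pos_of_not_isUnit hHi.ne_zero hHi.not_isUnit
  refine ⟨H, hH, hHi, ?_, ?_⟩
  · unfold selfInt
    linarith
  · rw [adjunction T hdeg]
    linarith

end Pool.Agent.MP_008bba_ag
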