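import Pool.Agent.MP_008bba_ag.Defs

open MvPolynomial

namespace Pool.Agent.MP_008bba_ag

noncomputable def shiftHom (v : Fin 3 → ℂ) :
    MvPolynomial (Fin 3) ℂ →ₐ[ℂ] MvPolynomial (Fin 3) ℂ := aeval (fun i => X i + C (v i))

lemma shift_comp (v w : Fin 3 → ℂ) :
    (shiftHom v).comp (shiftHom w) = shiftHom (fun i => v i + w i) := by
  apply MvPolynomial.algHom_ext
  intro i
  simp [shiftHom, algebraMap_eq, add_assoc]

lemma shift_zero : shiftHom (fun _ => 0) = AlgHom.id ℂ _ := by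
  apply MvPolynomial.algHom_ext
  intro i
  simp [shiftHom]

noncomputable def shift (v : Fin 3 → ℂ) :
    MvPolynomial (Fin 3) ℂ ≃ₐ[ℂ] MvPolynomial (Fin 3) ℂ :=
  AlgEquiv.ofAlgHom (shiftHom v) (shiftHom (fun i => - v i))
    (by rw [shift_comp]; simpa using shift_zero) (by rw [shift_comp]; simpa using shift_zero)

@[simp] lemma shift_X (v : Fin 3 → ℂ) (i : Fin 3) : shift v (X i) = X i + C (v i) := by
  simp [shift, shiftHom]

@[simp] lemma shift_C (v : Fin 3 → ℂ) (a : ℂ) : shift v (C a) = C a := by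
  simpa [algebraMap_eq] using (shift v).commutes a

lemma eval_zero_shift (v : Fin 3 → ℂ) (F : MvPolynomial (Fin 3) ℂ) :
    eval (0 : Fin 3 → ℂ) (shift v F) = eval v F := by
  have : ((aeval (0 : Fin 3 → ℂ)).comp (shift v).toAlgHom) = (aeval v : _ →ₐ[ℂ] ℂ) := by
    apply MvPolynomial.algHom_ext
    intro i
    simp
  have := congrArg (fun f => f F) this
  simpa [aeval_eq_eval] using this

lemma ker_eval_zero : RingHom.ker (eval (0 : Fin 3 → ℂ)) = idealOfVars (Fin 3) ℂ := by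
  ext F
  rw [RingHom.mem_ker]
  have h := mem_pow_idealOfVars_iff' 1 F
  rw [pow_one] at h
  rw [h]
  constructor
  · intro hF x hx
    have : x = 0 := by
      have : x.degree = 0 := by omega
      exact (Finsupp.degree_eq_zero_iff x).mp this
    subst this
    rw [← constantCoeff_eq]
    simpa [eval_zero] using hF
  · intro hF
    have := hF 0 (by simp)
    rw [← constantCoeff_eq] at this
    simpa [eval_zero] using this

lemma mem_ker_pow_iff (v : Fin 3 → ℂ) (m : ℕ) (F : MvPolynomial (Fin 3) ℂ) :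
    F ∈ (RingHom.ker (eval v)) ^ m ↔ shift v F ∈ idealOfVars (Fin 3) ℂ ^ m := by
  have h1 : RingHom.ker (eval v) =
      (idealOfVars (Fin 3) ℂ).comap ((shift v).toRingEquiv) := by
    ext G
    rw [Ideal.mem_comap, ← ker_eval_zero, RingHom.mem_ker, RingHom.mem_ker]
    exact (Eq.congr_left (eval_zero_shift v G)).symm
  rw [h1, ← Ideal.map_symm, ← Ideal.map_pow, Ideal.map_symm, Ideal.mem_comap]
  rfl

noncomputable def pord (F : MvPolynomial (Fin 3) ℂ) (v : Fin 3 → ℂ) : ℕ∞ :=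
  ((shift v F : MvPolynomial (Fin 3) ℂ) : MvPowerSeries (Fin 3) ℂ).order

lemma le_pord_iff (v : Fin 3 → ℂ) (m : ℕ) (F : MvPolynomial (Fin 3) ℂ) :
    (m : ℕ∞) ≤ pord F v ↔ F ∈ (RingHom.ker (eval v)) ^ m := by
  rw [mem_ker_pow_iff, mem_pow_idealOfVars_iff']
  constructor
  · intro h x hx
    have := MvPowerSeries.coeff_of_lt_order (f := ((shift v F : MvPolynomial (Fin 3) ℂ) : MvPowerSeries (Fin 3) ℂ)) (d := x)
      (lt_of_lt_of_le (by exact_mod_cast hx) h)
    simpa using this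
  · intro h
    apply MvPowerSeries.nat_le_order
    intro d hd
    simpa using h d hd

lemma pord_ne_top {F : MvPolynomial (Fin 3) ℂ} (hF : F ≠ 0) (v : Fin 3 → ℂ) : pord F v ≠ ⊤ := by
  unfold pord
  rw [Ne, MvPowerSeries.order_eq_top_iff]
  intro h
  have h' : ((shift v F : MvPolynomial (Fin 3) ℂ) : MvPowerSeries (Fin 3) ℂ) = ((0 : MvPolynomial (Fin 3) ℂ) : MvPowerSeries (Fin 3) ℂ) := by
    simpa using h
  have := MvPolynomial.coe_injective (σ := Fin 3) (R := ℂ) h'
  exact hF (by simpa using this)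

lemma coe_mult {F : MvPolynomial (Fin 3) ℂ} (hF : F ≠ 0) (v : Fin 3 → ℂ) :
    (mult F v : ℕ∞) = pord F v := by
  obtain ⟨n, hn⟩ := ENat.ne_top_iff_exists.mp (pord_ne_top hF v)
  have : {m : ℕ | F ∈ (RingHom.ker (MvPolynomial.eval v)) ^ m} = Set.Iic n := by
    ext m
    rw [Set.mem_ofPred_eq, ← le_pord_iff, ← hn]
    simp
  rw [mult, this, ← hn]
  congr 1
  exact csSup_Iic

lemma le_mult_iff {F : MvPolynomial (Fin 3) ℂ} (hF : F ≠ 0) (v : Fin 3 → ℂ) (m : ℕ) :
    m ≤ mult F v ↔ F ∈ (RingHom.ker (eval v)) ^ m := by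
  rw [← le_pord_iff, ← coe_mult hF]
  simp

lemma mult_mul {F G : MvPolynomial (Fin 3) ℂ} (hF : F ≠ 0) (hG : G ≠ 0) (v : Fin 3 → ℂ) :
    mult (F * G) v = mult F v + mult G v := by
  have : ((mult (F * G) v : ℕ) : ℕ∞) = ((mult F v + mult G v : ℕ) : ℕ∞) := by
    rw [coe_mult (mul_ne_zero hF hG)]
    push_cast
    rw [coe_mult hF, coe_mult hG]
    unfold pord
    rw [map_mul, MvPolynomial.coe_mul, MvPowerSeries.order_mul]
  exact_mod_cast this

end Pool.Agent.MP_008bba_ag
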