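import Pool.Agent.MP_008bba_ag.Family

open MvPolynomial

namespace Pool.Agent.MP_008bba_ag

/-- pullback under `(x : y : z) ↦ (x^2 : y^2 : z^2)` -/
noncomputable def sq : MvPolynomial (Fin 3) ℂ →ₐ[ℂ] MvPolynomial (Fin 3) ℂ :=
  aeval (fun i => X i ^ 2)

lemma sq_monomial (s : Fin 3 →₀ ℕ) (c : ℂ) : sq (monomial s c) = monomial (2 • s) c := by
  rw [sq, aeval_monomial, monomial_eq, Finsupp.prod_fintype _ _ (by intro i; simp),
    Finsupp.prod_fintype _ _ (by intro i; simp)]
  simp only [← pow_mul]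
  rfl

lemma coeff_sq (F : MvPolynomial (Fin 3) ℂ) (s : Fin 3 →₀ ℕ) : coeff (2 • s) (sq F) = coeff s F := by
  classical
  conv_lhs => rw [F.as_sum]
  rw [map_sum, coeff_sum]
  simp only [sq_monomial, coeff_monomial]
  have h : ∀ x : Fin 3 →₀ ℕ, (2 • x = 2 • s) ↔ x = s := by
    intro x
    constructor
    · intro h
      ext i
      have := congrArg (fun f => f i) h
      simp at this
      exact this
    · rintro rfl; rfl
  simp only [h]
  rw [Finset.sum_ite_eq']
  split_ifs with h1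
  · rfl
  · exact (notMem_support_iff.mp h1).symm

lemma sq_injective : Function.Injective sq := by
  intro F G h
  ext s
  rw [← coeff_sq F s, ← coeff_sq G s, h]

lemma sq_ne_zero {F : MvPolynomial (Fin 3) ℂ} (hF : F ≠ 0) : sq F ≠ 0 := by
  intro h
  exact hF (sq_injective (by rw [h, map_zero]))

lemma sq_isHomogeneous {F : MvPolynomial (Fin 3) ℂ} {d : ℕ} (hF : F.IsHomogeneous d) :
    (sq F).IsHomogeneous (2 * d) := by
  have := hF.aeval (fun i => (X i ^ 2 : MvPolynomial (Fin 3) ℂ)) (n := 2) (by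
    intro i
    simpa using (isHomogeneous_X ℂ i).pow 2)
  exact this

noncomputable def theta (v : Fin 3 → ℂ) : MvPolynomial (Fin 3) ℂ →ₐ[ℂ] MvPolynomial (Fin 3) ℂ :=
  aeval (fun i => X i * (X i + C (2 * v i)))

lemma shift_sq (v : Fin 3 → ℂ) (F : MvPolynomial (Fin 3) ℂ) :
    shift v (sq F) = theta v (shift (fun i => v i ^ 2) F) := by
  have : (shift v).toAlgHom.comp sq = (theta v).comp (shift (fun i => v i ^ 2)).toAlgHom := by
    apply MvPolynomial.algHom_ext
    intro i
    simp only [AlgHom.comp_apply, sq, theta, aeval_X, map_pow]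
    change (shift v (X i)) ^ 2 = _
    have e1 : (shift (fun i => v i ^ 2)).toAlgHom (X i) = X i + C (v i ^ 2) := shift_X _ _
    rw [e1, shift_X, map_add, aeval_X]
    have e2 : (aeval (fun i => X i * (X i + C (2 * v i))) : MvPolynomial (Fin 3) ℂ →ₐ[ℂ] MvPolynomial (Fin 3) ℂ) (C (v i ^ 2)) = C (v i ^ 2) := by
      simp [algebraMap_eq]
    rw [e2, C_mul, C_pow]
    have : (C 2 : MvPolynomial (Fin 3) ℂ) = 2 := by rfl
    rw [this]
    ring
  exact congrArg (fun f => f F) this

lemma coeff_theta_monomial (v : Fin 3 → ℂ) (a b : Fin 3 →₀ ℕ) (c : ℂ) (h : a.degree ≤ b.degree) :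
    coeff a (theta v (monomial b c)) = if b = a then c * ∏ i, (2 * v i) ^ (b i) else 0 := by
  classical
  have h1 : theta v (monomial b c) = monomial b c * ∏ i, (X i + C (2 * v i)) ^ (b i) := by
    rw [theta, aeval_monomial, monomial_eq, Finsupp.prod_fintype _ _ (by intro i; simp),
      Finsupp.prod_fintype _ _ (by intro i; simp)]
    simp only [mul_pow, Finset.prod_mul_distrib]
    rw [mul_assoc]
    rfl
  rw [h1, coeff_monomial_mul']
  by_cases hba : b = a
  · subst hba
    rw [if_pos le_rfl, if_pos rfl, tsub_self]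
    congr 1
    rw [← constantCoeff_eq, map_prod]
    simp
  · rw [if_neg hba, if_neg]
    intro hle
    apply hba
    have hd : (a - b).degree + b.degree = a.degree := by
      rw [← map_add, tsub_add_cancel_of_le hle]
    have : (a - b).degree = 0 := by omega
    rw [Finsupp.degree_eq_zero_iff] at this
    exact le_antisymm hle (tsub_eq_zero_iff_le.mp this)

lemma mult_sq {F : MvPolynomial (Fin 3) ℂ} (hF : F ≠ 0) {v : Fin 3 → ℂ} (hv : ∀ i, v i ≠ 0) :
    mult (sq F) v = mult F (fun i => v i ^ 2) := by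
  apply le_antisymm
  · by_contra hlt
    push Not at hlt
    set m := mult F (fun i => v i ^ 2) with hm
    have h1 : m + 1 ≤ mult (sq F) v := hlt
    rw [le_mult_iff (sq_ne_zero hF), mem_ker_pow_iff, shift_sq, mem_pow_idealOfVars_iff'] at h1
    have h2 : ¬ (m + 1 ≤ mult F (fun i => v i ^ 2)) := by omega
    rw [le_mult_iff hF, mem_ker_pow_iff, mem_pow_idealOfVars_iff'] at h2
    push Not at h2
    obtain ⟨a, ha, ha0⟩ := h2
    have h3 : m ≤ mult F (fun i => v i ^ 2) := le_rfl
    rw [le_mult_iff hF, mem_ker_pow_iff, mem_pow_idealOfVars_iff'] at h3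
    set G := shift (fun i => v i ^ 2) F
    have hadeg : a.degree = m := by
      by_contra hne
      exact ha0 (h3 a (by omega))
    have h4 := h1 a ha
    rw [G.as_sum, map_sum, coeff_sum] at h4
    have h5 : ∀ b ∈ G.support, coeff a (theta v (monomial b (coeff b G))) =
        if b = a then coeff b G * ∏ i, (2 * v i) ^ (b i) else 0 := by
      intro b hb
      apply coeff_theta_monomial
      rw [hadeg]
      by_contra hlt2
      push Not at hlt2
      exact (mem_support_iff.mp hb) (h3 b hlt2)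
    rw [Finset.sum_congr rfl h5, Finset.sum_ite_eq', if_pos (mem_support_iff.mpr ha0)] at h4
    rcases mul_eq_zero.mp h4 with h | h
    · exact ha0 h
    · rw [Finset.prod_eq_zero_iff] at h
      obtain ⟨i, _, hi⟩ := h
      exact (pow_ne_zero _ (mul_ne_zero two_ne_zero (hv i))) hi
  · rw [le_mult_iff (sq_ne_zero hF)]
    apply map_mem_pow sq (RingHom.ker (eval v)) (fun i => v i ^ 2) _ ((le_mult_iff hF _ _).mp le_rfl)
    intro i
    rw [RingHom.mem_ker]
    have : sq (C (v i ^ 2)) = C (v i ^ 2) := sq.commutes _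
    rw [map_sub, this]
    simp [sq]

/-! ### sign changes -/

lemma neg_one_ne : (-1 : ℂ) ≠ 0 := by norm_num

/-- the sign vector with `-1` at the place `j` -/
def sgn (j : Fin 3) : Fin 3 → ℂ := fun i => if i = j then -1 else 1

lemma sgn_ne (j i : Fin 3) : sgn j i ≠ 0 := by
  unfold sgn; split_ifs <;> norm_num

/-- change of sign of the `j`-th coordinate -/
noncomputable def flip (j : Fin 3) : MvPolynomial (Fin 3) ℂ ≃ₐ[ℂ] MvPolynomial (Fin 3) ℂ :=
  diag (sgn j) (sgn_ne j)

lemma flip_monomial (j : Fin 3) (s : Fin 3 →₀ ℕ) (c : ℂ) :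
    flip j (monomial s c) = monomial s ((-1) ^ (s j) * c) := by
  rw [flip, diag_apply, diagHom, aeval_monomial, monomial_eq,
    Finsupp.prod_fintype _ _ (by intro i; simp), Finsupp.prod_fintype _ _ (by intro i; simp)]
  simp only [mul_pow, Finset.prod_mul_distrib, algebraMap_eq]
  have h : ∏ i, (C (sgn j i) : MvPolynomial (Fin 3) ℂ) ^ s i = C ((-1) ^ (s j)) := by
    rw [Finset.prod_eq_single j]
    · simp [sgn]
    · intro i _ hij
      simp [sgn, hij]
    · intro h; exact absurd (Finset.mem_univ _) h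
  rw [h, C_mul]
  ring

lemma coeff_flip (j : Fin 3) (F : MvPolynomial (Fin 3) ℂ) (s : Fin 3 →₀ ℕ) :
    coeff s (flip j F) = (-1) ^ (s j) * coeff s F := by
  classical
  conv_lhs => rw [F.as_sum]
  rw [map_sum, coeff_sum]
  simp only [flip_monomial, coeff_monomial]
  rw [Finset.sum_ite_eq']
  split_ifs with h1
  · rfl
  · rw [notMem_support_iff.mp h1, mul_zero]

lemma flip_flip (j : Fin 3) (F : MvPolynomial (Fin 3) ℂ) : flip j (flip j F) = F := by
  ext s
  rw [coeff_flip, coeff_flip, ← mul_assoc, ← mul_pow]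
  simp

lemma flip_comm (i j : Fin 3) (F : MvPolynomial (Fin 3) ℂ) :
    flip i (flip j F) = flip j (flip i F) := by
  ext s
  simp only [coeff_flip]
  ring

lemma flip_sq (j : Fin 3) (F : MvPolynomial (Fin 3) ℂ) : flip j (sq F) = sq F := by
  conv_lhs => rw [F.as_sum]
  conv_rhs => rw [F.as_sum]
  rw [map_sum, map_sum]
  apply Finset.sum_congr rfl
  intro s _
  rw [sq_monomial, flip_monomial]
  congr 1
  simp [pow_mul]

lemma even_of_flip {j : Fin 3} {N : MvPolynomial (Fin 3) ℂ} (h : flip j N = N)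
    {s : Fin 3 →₀ ℕ} (hs : s ∈ N.support) : Even (s j) := by
  by_contra hodd
  rw [Nat.not_even_iff_odd] at hodd
  have h1 := congrArg (coeff s) h
  rw [coeff_flip, hodd.neg_one_pow] at h1
  have h2 : coeff s N = 0 := by linear_combination (-1 / 2 : ℂ) * h1
  exact (mem_support_iff.mp hs) h2

lemma exists_sq {N : MvPolynomial (Fin 3) ℂ} {k : ℕ} (hN : N.IsHomogeneous (2 * k))
    (h0 : flip 0 N = N) (h2 : flip 2 N = N) :
    ∃ Q : MvPolynomial (Fin 3) ℂ, sq Q = N := by
  classical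
  refine ⟨∑ s ∈ N.support, monomial (Finsupp.mapRange (fun k => k / 2) (by simp) s) (coeff s N), ?_⟩
  rw [map_sum]
  conv_rhs => rw [N.as_sum]
  apply Finset.sum_congr rfl
  intro s hs
  rw [sq_monomial]
  have e0 := even_of_flip h0 hs
  have e2 := even_of_flip h2 hs
  have hsum := IsHomogeneous.sum_eq hN hs
  have e1 : Even (s 1) := by
    rw [Nat.even_iff] at e0 e2 ⊢
    omega
  have h : 2 • (Finsupp.mapRange (fun k => k / 2) (by simp) s) = s := by
    ext i
    simp only [Finsupp.smul_apply, Finsupp.mapRange_apply, smul_eq_mul]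
    fin_cases i
    · exact Nat.mul_div_cancel' e0.two_dvd
    · exact Nat.mul_div_cancel' e1.two_dvd
    · exact Nat.mul_div_cancel' e2.two_dvd
  rw [h]

lemma flip_isHomogeneous {F : MvPolynomial (Fin 3) ℂ} {d : ℕ} (hF : F.IsHomogeneous d) (j : Fin 3) :
    (flip j F).IsHomogeneous d := by
  have := hF.aeval (fun i => (C (sgn j i) * X i : MvPolynomial (Fin 3) ℂ)) (n := 1) (by
    intro i
    exact (isHomogeneous_X ℂ i).C_mul _)
  rw [one_mul] at this
  exact this

/-- the norm for the group of sign changes of the first and the last coordinate -/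
noncomputable def nrm (H : MvPolynomial (Fin 3) ℂ) : MvPolynomial (Fin 3) ℂ :=
  (H * flip 0 H) * (flip 2 H * flip 0 (flip 2 H))

lemma flip_zero_nrm (H : MvPolynomial (Fin 3) ℂ) : flip 0 (nrm H) = nrm H := by
  unfold nrm
  simp only [map_mul, flip_flip]
  ring

lemma flip_two_nrm (H : MvPolynomial (Fin 3) ℂ) : flip 2 (nrm H) = nrm H := by
  unfold nrm
  rw [map_mul, map_mul, map_mul, flip_comm 2 0 (flip 2 H), flip_flip, flip_comm 2 0 H]
  ring

lemma flip_ne_zero {H : MvPolynomial (Fin 3) ℂ} (hH : H ≠ 0) (j : Fin 3) : flip j H ≠ 0 := by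
  intro h
  exact hH ((flip j).injective (by rw [h, map_zero]))

lemma nrm_ne_zero {H : MvPolynomial (Fin 3) ℂ} (hH : H ≠ 0) : nrm H ≠ 0 :=
  mul_ne_zero (mul_ne_zero hH (flip_ne_zero hH 0))
    (mul_ne_zero (flip_ne_zero hH 2) (flip_ne_zero (flip_ne_zero hH 2) 0))

lemma nrm_isHomogeneous {H : MvPolynomial (Fin 3) ℂ} {e : ℕ} (hH : H.IsHomogeneous e) :
    (nrm H).IsHomogeneous (2 * (2 * e)) := by
  have := (hH.mul (flip_isHomogeneous hH 0)).mul
    ((flip_isHomogeneous hH 2).mul (flip_isHomogeneous (flip_isHomogeneous hH 2) 0))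
  have e1 : e + e + (e + e) = 2 * (2 * e) := by ring
  rw [e1] at this
  exact this

/-- structure of the irreducible factors of a pullback -/
lemma factor_sq {F H : MvPolynomial (Fin 3) ℂ} {d : ℕ} (hF : F.IsHomogeneous d)
    (hFi : Irreducible F) (hH : Irreducible H) (hdvd : H ∣ sq F) :
    ∃ a : ℕ, 1 ≤ a ∧ ∃ c : ℂ, c ≠ 0 ∧ nrm H = C c * (sq F) ^ a := by
  have hF0 : F ≠ 0 := hFi.ne_zero
  have hH0 : H ≠ 0 := hH.ne_zero
  have hG0 : sq F ≠ 0 := sq_ne_zero hF0
  -- H is homogeneous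
  obtain ⟨W₁, hW₁⟩ := hdvd
  have hW₁0 : W₁ ≠ 0 := by rintro rfl; exact hG0 (by simpa using hW₁)
  obtain ⟨hHh, -, -⟩ := isHomogeneous_of_mul hH0 hW₁0 (hW₁ ▸ sq_isHomogeneous hF)
  set e := H.totalDegree with he
  -- the norm divides the fourth power
  have hd0 : H ∣ sq F := ⟨W₁, hW₁⟩
  have hdj : ∀ j, ∀ K, K ∣ sq F → flip j K ∣ sq F := by
    intro j K hK
    have := map_dvd (flip j) hK
    rwa [flip_sq] at this
  have hN4 : nrm H ∣ (sq F) ^ 4 := by
    have e4 : (sq F) ^ 4 = (sq F * sq F) * (sq F * sq F) := by ring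
    rw [e4]
    exact mul_dvd_mul (mul_dvd_mul hd0 (hdj 0 _ hd0))
      (mul_dvd_mul (hdj 2 _ hd0) (hdj 0 _ (hdj 2 _ hd0)))
  obtain ⟨W, hW⟩ := hN4
  have hN0 := nrm_ne_zero hH0
  have hW0 : W ≠ 0 := by rintro rfl; exact (pow_ne_zero 4 hG0) (by simpa using hW)
  have hWflip : ∀ j, flip j (nrm H) = nrm H → flip j W = W := by
    intro j hj
    have h1 := congrArg (flip j) hW
    rw [map_pow, flip_sq, map_mul, hj, hW] at h1
    exact (mul_left_cancel₀ hN0 h1).symm
  have hhom4 : (nrm H * W).IsHomogeneous (2 * (4 * d)) := by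
    rw [← hW]
    have := (sq_isHomogeneous hF).pow 4
    have e1 : 2 * d * 4 = 2 * (4 * d) := by ring
    rw [e1] at this
    exact this
  obtain ⟨hNh, hWh, hdeg⟩ := isHomogeneous_of_mul hN0 hW0 hhom4
  have hNdeg : (nrm H).totalDegree = 2 * (2 * e) := (nrm_isHomogeneous hHh).totalDegree hN0
  have hWdeg : W.totalDegree = 2 * (4 * d - 2 * e) := by omega
  obtain ⟨Q, hQ⟩ := exists_sq (nrm_isHomogeneous hHh) (flip_zero_nrm H) (flip_two_nrm H)
  rw [hWdeg] at hWh
  obtain ⟨V, hV⟩ := exists_sq hWh (hWflip 0 (flip_zero_nrm H)) (hWflip 2 (flip_two_nrm H))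
  have hF4 : F ^ 4 = Q * V := by
    apply sq_injective
    rw [map_pow, map_mul, hQ, hV, hW]
  have hFp : Prime F := hFi.prime
  obtain ⟨a, -, ha⟩ := (dvd_prime_pow hFp 4).mp (Dvd.intro V hF4.symm)
  obtain ⟨u, hu⟩ := ha.symm
  obtain ⟨r, hr, hur⟩ := (MvPolynomial.isUnit_iff_eq_C_of_isReduced.mp u.isUnit)
  have hr0 : r ≠ 0 := hr.ne_zero
  have hfin : nrm H = C r * (sq F) ^ a := by
    rw [← hQ, ← hu, map_mul, map_pow, hur]
    have : sq (C r) = C r := sq.commutes r
    rw [this, mul_comm]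
  refine ⟨a, ?_, r, hr0, hfin⟩
  by_contra ha1
  have ha0 : a = 0 := by omega
  rw [ha0, pow_zero, mul_one] at hfin
  have hunit : IsUnit (nrm H) := by
    rw [hfin]; exact hr.map C
  have : IsUnit H := by
    unfold nrm at hunit
    rw [mul_assoc] at hunit
    exact isUnit_of_mul_isUnit_left hunit
  exact hH.not_isUnit this

end Pool.Agent.MP_008bba_ag
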